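import Pool.Agent.H94.LH.Stmts

/-! Board `lhb`, row `GRE` (MP_05f553, large heights): greedy choice of primes of one
coordinate. -/

set_option autoImplicit false

namespace Pool.LH

open Finset Pool.Agent.H98.ABCR Pool.SHA

theorem gre_thm (hK : S_KNA) : S_GRE := by
  intro n θ hn h0 h1
  have hpr : ∀ q ∈ n.primeFactors, q.Prime := fun q hq => Nat.prime_of_mem_primeFactors hq
  have hgp1 : 1 ≤ gp n := le_sup_right
  have hqg : ∀ q ∈ n.primeFactors, q ≤ gp n := fun q hq =>
    le_trans (Finset.le_sup (f := id) hq) le_sup_left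
  obtain ⟨T, hT, hμ, hg⟩ := hK n.primeFactors
    (fun q => (n.factorization q : ℝ) * Real.log q) (fun q => Real.log q) θ (Real.log (gp n))
    (fun q hq => mul_nonneg (Nat.cast_nonneg _)
      (Real.log_nonneg (by exact_mod_cast (hpr q hq).one_lt.le)))
    (fun q hq => Real.log_pos (by exact_mod_cast (hpr q hq).one_lt)) h0 h1
    (Real.log_nonneg (by exact_mod_cast hgp1))
    (fun q hq => Real.log_le_log (by exact_mod_cast (hpr q hq).pos)
      (by exact_mod_cast hqg q hq))
  refine ⟨T, hT, ?_, ?_⟩
  · have hlog : Real.log n = ∑ q ∈ n.primeFactors, (n.factorization q : ℝ) * Real.log q := by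
      conv_lhs => rw [← Nat.factorization_prod_pow_eq_self hn.ne']
      unfold Finsupp.prod
      rw [Nat.support_factorization]
      push_cast
      rw [Real.log_prod (fun q hq => by
        have := (hpr q hq).pos
        positivity)]
      exact Finset.sum_congr rfl (fun q _ => Real.log_pow _ _)
    rw [hlog]
    exact hμ
  · have hT0 : (0 : ℝ) < ((∏ q ∈ T, q : ℕ) : ℝ) := by
      have : 0 < ∏ q ∈ T, q := Finset.prod_pos (fun q hq => (hpr q (hT hq)).pos)
      exact_mod_cast this
    have hr0 : (0 : ℝ) < (rad n : ℝ) := by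
      have : 0 < rad n := Finset.prod_pos (fun q hq => (hpr q hq).pos)
      exact_mod_cast this
    have hg0 : (0 : ℝ) < (gp n : ℝ) := by exact_mod_cast hgp1
    have hlT : Real.log ((∏ q ∈ T, q : ℕ) : ℝ) = ∑ q ∈ T, Real.log q := by
      push_cast
      exact Real.log_prod (fun q hq => by
        have := (hpr q (hT hq)).pos
        positivity)
    have hlr : Real.log (rad n : ℝ) = ∑ q ∈ n.primeFactors, Real.log q := by
      unfold rad
      push_cast
      exact Real.log_prod (fun q hq => by
        have := (hpr q hq).pos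
        positivity)
    rw [← Real.log_le_log_iff hT0 (mul_pos (Real.rpow_pos_of_pos hr0 _) hg0), hlT,
      Real.log_mul (Real.rpow_pos_of_pos hr0 _).ne' hg0.ne', Real.log_rpow hr0, hlr]
    exact hg

end Pool.LH
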